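import Pool.Agent.H37.Sh2

set_option autoImplicit false

open Filter Topology Pool.Agent.H37

/-- A sublinear order function all of whose shift complex classes are deep and negligible. -/
theorem Pool.Agent.Results.MP_c57dc8_lc.Yes.result :
    ∃ f : ℕ → ℕ, Sh.Order f ∧ Tendsto (fun n => (f n : ℝ) / n) atTop (𝓝 0) ∧
      ∀ V, Ki.Opt V → ∀ c : ℕ,
        (∀ M, Sol.Semi M → Sol.Lsc M → Sh.Deep M (Sh.SC V f c)) ∧ Sh.Negl (Sh.SC V f c) :=
  ⟨Sh.ff, Sh.order_ff, Sh.lim_ff, fun _ hV c => ⟨fun _ hS hL => Sh.deep hS hL hV c, Sh.negl hV c⟩⟩
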